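import Mathlib
import Pool.Agent.Lib.MP_e6529f_an.Final

/-!
# A basic set without box dimension (Q1)

There is a smooth diffeomorphism of `ℝ^5` with a basic set whose lower and upper box dimensions
are different.
-/

namespace Pool.Agent.Results.MP_e6529f_an.NoBoxDimension

open Pool.Agent.MPe6529f

theorem result : ∃ (f : Equiv.Perm (EuclideanSpace ℝ (Fin 5)))
    (Λ : Set (EuclideanSpace ℝ (Fin 5))),
    IsSmoothDiffeo f ∧ IsBasicSet f Λ ∧ lowerBoxDim Λ < upperBoxDim Λ :=
  ⟨ff, Lam, isSmoothDiffeo_ff, isBasicSet_Lam, gap_Lam⟩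

end Pool.Agent.Results.MP_e6529f_an.NoBoxDimension
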