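import Mathlib
import Pool.Agent.Lib.MP_e6529f_an.Final

/-!
# Stable slices of a basic set without box dimension (Q2)

There is a smooth diffeomorphism of `ℝ^5` with a basic set all of whose intersections with local
stable manifolds have different lower and upper box dimensions.
-/

namespace Pool.Agent.Results.MP_e6529f_an.NoSliceDimension

open Pool.Agent.MPe6529f

theorem result : ∃ (f : Equiv.Perm (EuclideanSpace ℝ (Fin 5)))
    (Λ : Set (EuclideanSpace ℝ (Fin 5))),
    IsSmoothDiffeo f ∧ IsBasicSet f Λ ∧ ∀ x ∈ Λ, ∀ ε : ℝ, 0 < ε →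
      lowerBoxDim (Λ ∩ localStable f ε x) < upperBoxDim (Λ ∩ localStable f ε x) :=
  ⟨ff, Lam, isSmoothDiffeo_ff, isBasicSet_Lam, fun _ hx _ hε => gap_slice hx hε⟩

end Pool.Agent.Results.MP_e6529f_an.NoSliceDimension
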